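import Pool.Agent.W622.ETG.Stm

set_option autoImplicit false
set_option linter.unusedSectionVars false

/-! RIG1 (relative birigid elements), part of project ELG of helper622; adapted from
`Pool.Agent.W688.ELT.RIG1`. -/

namespace Pool.Agent.W347.ELG

open Pool.Agent.W622.ETG Module

section
variable {V : Type} [AddCommGroup V] [Module (ZMod 2) V] [Finite V] {e : V}

/-- the vectors killed by `X` -/
abbrev WW (X : DSub V) : Submodule (ZMod 2) V := X.dualCoannihilator

theorem mem_WW {X : DSub V} {w : V} : w ∈ WW X ↔ ∀ f ∈ X, f w = 0 :=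
  Submodule.mem_dualCoannihilator w

/-- `R(a)`: `K_a ≤ W + ⟨a + e⟩` -/
def RR (e : V) (A : Fam V) (X : DSub V) (a : V) : Prop :=
  ∀ y, (∀ ω ∈ A, ω a y = 0) → y ∈ WW X ∨ y + a + e ∈ WW X

/-- birigid elements -/
def Rig (e : V) (A : Fam V) (X : DSub V) (a : V) : Prop :=
  (a ∉ WW X ∧ a + e ∉ WW X) ∧ RR e A X a ∧ RR e A X (a + e)

/-- members of `A` do not see `W` -/
theorem kill_r {A : Fam V} {X : DSub V} (hs : supp A ≤ X) {ω : Frm V} (hω : ω ∈ A) {w : V}
    (hw : w ∈ WW X) (b : V) : ω b w = 0 :=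
  mem_WW.mp hw _ (supp_le.mp hs ω hω b)

theorem kill_l {A : Fam V} {X : DSub V} (hA : EFam e A) (hs : supp A ≤ X) {ω : Frm V}
    (hω : ω ∈ A) {w : V} (hw : w ∈ WW X) (b : V) : ω w b = 0 := by
  rw [(hA ω hω).symm]
  exact kill_r hs hω hw b

theorem tr_r {A : Fam V} {X : DSub V} (hs : supp A ≤ X) {ω : Frm V} (hω : ω ∈ A) {u z : V}
    (hw : u + z ∈ WW X) (b : V) : ω b u = ω b z := by
  have h := kill_r hs hω hw b
  rw [map_add] at h
  exact add_eq_zero'.mp h

theorem z2 : (2 : ZMod 2) = 0 := rfl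

/-- step 1 -/
theorem step1 (hPL : S_PL) {A : Fam V} {X : DSub V} (hA : EFam e A) (hL : Linked A)
    (hs : supp A ≤ X) {x α y u : V} (hx : RR e A X x) (hy : ∀ ω ∈ A, ω α y = 0)
    (hu : ∀ ω ∈ A, ω (α + x) u = 0) :
    (∀ ω ∈ A, ω y u = ω u x + ω u e) ∨ (∀ ω ∈ A, ω y u = ω y x + ω y e) := by
  have h0 : ∀ ω ∈ A, ω (y + u) α = ω x u := by
    intro ω hω
    have h1 := hy ω hω
    have h2 := hu ω hω
    have h3 := (hA ω hω).symm u α
    have h4 := (hA ω hω).symm y α
    simp only [map_add, LinearMap.add_apply] at h2 ⊢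
    rw [h3, h4, h1, zero_add]
    exact add_eq_zero'.mp h2
  obtain ⟨z, hz1, hz2, hz3⟩ := hPL V e A hA hL (y + u) x α u h0
  rcases hx (u + z) hz2 with h | h
  · left
    intro ω hω
    have h1 := hz3 ω hω
    rw [← tr_r hs hω h (y + u + x)] at h1
    have h3 := (hA ω hω).symm x u
    have h4 := (hA ω hω).sq u
    simp only [map_add, LinearMap.add_apply] at h1
    linear_combination h1 - h3 - h4 - (ω u x + ω u e) * z2
  · right
    intro ω hω
    have h1 := hz1 ω hω
    have h' : (u + x + e) + z ∈ WW X := by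
      have e1 : (u + x + e) + z = u + z + x + e := by abel
      rw [e1]; exact h
    have h2 := tr_r hs hω h' (y + u)
    rw [map_add, ← h2] at h1
    have h3 := hy ω hω
    have h4 := hu ω hω
    have h5 := (hA ω hω).sq u
    have h6 := (hA ω hω).symm x u
    have h7 := (hA ω hω).symm α u
    have h8 := (hA ω hω).symm α y
    simp only [map_add, LinearMap.add_apply] at h1 h4
    linear_combination h1 - h3 - h4 - h5 + h6 + h7 + h8 - (ω u e + ω y x + ω y e) * z2

theorem claim (hPL : S_PL) {A : Fam V} {X : DSub V} (hA : EFam e A) (hL : Linked A)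
    (hs : supp A ≤ X) {x α : V} (hx1 : RR e A X x) (hx2 : RR e A X (x + e))
    (hK : ¬ ∀ ω ∈ A, ω x α = 0) (hK' : ¬ ∀ ω ∈ A, ω x (α + e) = 0) :
    RR e A X α ∨ RR e A X (α + x) := by
  by_contra hc
  push Not at hc
  obtain ⟨h1, h2⟩ := hc
  have e1 : ∃ y, (∀ ω ∈ A, ω α y = 0) ∧ y ∉ WW X ∧ y + α + e ∉ WW X := by
    by_contra h
    push Not at h
    refine h1 fun y hy => ?_
    by_contra h'
    push Not at h'
    exact h'.2 (h y hy h'.1)
  have e2 : ∃ u, (∀ ω ∈ A, ω (α + x) u = 0) ∧ u ∉ WW X ∧ u + (α + x) + e ∉ WW X := by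
    by_contra h
    push Not at h
    refine h2 fun y hy => ?_
    by_contra h'
    push Not at h'
    exact h'.2 (h y hy h'.1)
  obtain ⟨y, hy, hy1, hy2⟩ := e1
  obtain ⟨u, hu, hu1, hu2⟩ := e2
  have hya : ∀ ω ∈ A, ω α (y + α + e) = 0 := by
    intro ω hω
    have h3 := (hA ω hω).self_e α
    rw [map_add] at h3
    rw [map_add, map_add, hy ω hω]
    linear_combination h3
  have s1 := step1 hPL hA hL hs hx1 hy hu
  have s2 := step1 hPL hA hL hs hx1 hya hu
  have hxe : x + e + e = x := add_cancel' x e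
  -- `B(u, α) = B(u, x)`
  have hua : ∀ ω ∈ A, ω u α = ω u x := by
    intro ω hω
    have h := hu ω hω
    rw [map_add, LinearMap.add_apply] at h
    rw [(hA ω hω).symm u α, (hA ω hω).symm u x]
    exact add_eq_zero'.mp h
  have s2' : (∀ ω ∈ A, ω y u = 0) ∨ (∀ ω ∈ A, ω y u = ω u x + ω u e + ω y x + ω y e +
      ω α x + ω α e + ω e x + ω e e) := by
    rcases s2 with h | h
    · left
      intro ω hω
      have h3 := h ω hω
      have h4 := hua ω hω
      have h5 := (hA ω hω).symm u α
      have h6 := (hA ω hω).symm u e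
      simp only [map_add, LinearMap.add_apply] at h3
      linear_combination h3 - h4 + h5 + h6
    · right
      intro ω hω
      have h3 := h ω hω
      have h4 := hua ω hω
      have h5 := (hA ω hω).symm u α
      have h6 := (hA ω hω).symm u e
      simp only [map_add, LinearMap.add_apply] at h3
      linear_combination h3 - h4 + h5 + h6 - (ω u x + ω u e) * z2
  rcases s1 with s1 | s1 <;> rcases s2' with s2 | s2
  · have h3 : ∀ ω ∈ A, ω (x + e) u = 0 := fun ω hω => by
      rw [(hA ω hω).symm, map_add, ← s1 ω hω, s2 ω hω]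
    rcases hx2 u h3 with h | h
    · exact hu1 h
    · apply hK'
      intro ω hω
      have h' : u + x ∈ WW X := by
        have e1 : u + (x + e) + e = u + x := by rw [← add_assoc]; exact add_cancel' (u + x) e
        rwa [e1] at h
      have h4 := hu ω hω
      rw [tr_r hs hω h' (α + x)] at h4
      have h5 := (hA ω hω).sq x
      have h6 := (hA ω hω).symm x α
      simp only [map_add, LinearMap.add_apply] at h4 ⊢
      linear_combination h4 - h5 + h6
  · have h3 : ∀ ω ∈ A, ω (x + e) (y + α + e) = 0 := fun ω hω => by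
      have f1 := s1 ω hω
      have f2 := s2 ω hω
      rw [(hA ω hω).symm]
      simp only [map_add, LinearMap.add_apply]
      linear_combination f1 - f2
    rcases hx2 _ h3 with h | h
    · exact hy2 h
    · apply hK
      intro ω hω
      have h4 := hy ω hω
      have h' : y + (x + (α + e)) ∈ WW X := by
        have e1 : y + α + e + (x + e) + e = y + (x + (α + e)) := by
          have : y + α + e + (x + e) + e = y + (x + (α + e)) + (e + e) := by abel
          rw [this, vadd, add_zero]
        rwa [e1] at h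
      rw [tr_r hs hω h' α, map_add, (hA ω hω).self_e, add_zero, (hA ω hω).symm] at h4
      exact h4
  · have h3 : ∀ ω ∈ A, ω (x + e) y = 0 := fun ω hω => by
      rw [(hA ω hω).symm, map_add, ← s1 ω hω, s2 ω hω]
    rcases hx2 _ h3 with h | h
    · exact hy1 h
    · apply hK
      intro ω hω
      have h4 := hy ω hω
      have h' : y + x ∈ WW X := by
        have e1 : y + (x + e) + e = y + x := by rw [← add_assoc]; exact add_cancel' (y + x) e
        rwa [e1] at h
      rw [tr_r hs hω h' α, (hA ω hω).symm] at h4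
      exact h4
  · have h3 : ∀ ω ∈ A, ω (x + e) (u + α + e) = 0 := fun ω hω => by
      have f1 := s1 ω hω
      have f2 := s2 ω hω
      rw [(hA ω hω).symm]
      simp only [map_add, LinearMap.add_apply]
      linear_combination f1 - f2
    rcases hx2 _ h3 with h | h
    · apply hK'
      intro ω hω
      have h4 := hu ω hω
      have h' : u + (α + e) ∈ WW X := by rw [← add_assoc]; exact h
      rw [tr_r hs hω h' (α + x), map_add ω, LinearMap.add_apply, (hA ω hω).self_e, zero_add] at h4
      exact h4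
    · apply hu2
      have e1 : u + α + e + (x + e) + e = u + (α + x) + e := by
        have : u + α + e + (x + e) + e = u + (α + x) + e + (e + e) := by abel
        rw [this, vadd, add_zero]
      rwa [e1] at h

/-- `R` is invariant under `W` -/
theorem RR.tr {A : Fam V} {X : DSub V} (hA : EFam e A) (hs : supp A ≤ X) {a c : V}
    (hac : a + c ∈ WW X) (ha : RR e A X a) : RR e A X c := by
  intro y hy
  rcases ha y (fun ω hω => by
    have h1 := kill_l hA hs hω hac y
    rw [map_add, LinearMap.add_apply, hy ω hω, add_zero] at h1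
    exact h1) with h | h
  · exact Or.inl h
  · right
    have := (WW X).add_mem h hac
    have e1 : y + a + e + (a + c) = y + c + e := by
      have : y + a + e + (a + c) = y + c + e + (a + a) := by abel
      rw [this, vadd, add_zero]
    rwa [e1] at this

/-- birigidity is invariant under `W` -/
theorem Rig.tr {A : Fam V} {X : DSub V} (hA : EFam e A) (hs : supp A ≤ X) {a c : V}
    (hac : a + c ∈ WW X) (ha : Rig e A X a) : Rig e A X c := by
  obtain ⟨⟨h1, h2⟩, h3, h4⟩ := ha
  refine ⟨⟨fun h => h1 ?_, fun h => h2 ?_⟩, h3.tr hA hs hac, h4.tr hA hs ?_⟩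
  · have := (WW X).add_mem hac h
    rwa [add_cancel'] at this
  · have := (WW X).add_mem hac h
    have e1 : a + c + (c + e) = a + e := by
      have : a + c + (c + e) = a + e + (c + c) := by abel
      rw [this, vadd, add_zero]
    rwa [e1] at this
  · have e1 : a + e + (c + e) = a + c := by
      have : a + e + (c + e) = a + c + (e + e) := by abel
      rw [this, vadd, add_zero]
    rw [e1]; exact hac

/-- birigidity is invariant under `e` -/
theorem Rig.te {A : Fam V} {X : DSub V} {a : V} (ha : Rig e A X a) : Rig e A X (a + e) := by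
  obtain ⟨⟨h1, h2⟩, h3, h4⟩ := ha
  have e1 : a + e + e = a := add_cancel' a e
  exact ⟨⟨h2, by rw [e1]; exact h1⟩, h4, by rw [e1]; exact h3⟩

/-- invariance under `W + ⟨e⟩` -/
theorem Rig.tr' {A : Fam V} {X : DSub V} (hA : EFam e A) (hs : supp A ≤ X) {a c : V}
    (hac : a + c ∈ WW X ∨ a + c + e ∈ WW X) (ha : Rig e A X a) : Rig e A X c := by
  rcases hac with h | h
  · exact ha.tr hA hs h
  · refine ha.te.tr hA hs ?_
    have e1 : a + e + c = a + c + e := by abel
    rw [e1]; exact h

/-- claim 1 and its consequence -/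
theorem claim2 (hPL : S_PL) {A : Fam V} {X : DSub V} (hA : EFam e A) (hL : Linked A)
    (hs : supp A ≤ X) {x a : V} (hx : Rig e A X x) (ha : a ∉ WW X) (ha' : a + e ∉ WW X)
    (hc : a + x ∉ WW X) (hc' : a + x + e ∉ WW X) : Rig e A X a ∨ Rig e A X (a + x) := by
  obtain ⟨-, x1, x2⟩ := hx
  have hxe : x + e + e = x := add_cancel' x e
  have hae : a + e + e = a := add_cancel' a e
  have x3 : RR e A X (x + e + e) := by rw [hxe]; exact x1
  -- nothing of `a + ⟨e⟩` is killed by `x`, `x + e`
  have k1 : ¬ ∀ ω ∈ A, ω x a = 0 := fun h => by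
    rcases x1 a h with h | h
    · exact ha h
    · exact hc' h
  have k2 : ¬ ∀ ω ∈ A, ω x (a + e) = 0 := fun h => by
    rcases x1 _ h with h | h
    · exact ha' h
    · apply hc
      have e1 : a + e + x + e = a + x := by
        have : a + e + x + e = a + x + (e + e) := by abel
        rw [this, vadd, add_zero]
      rwa [e1] at h
  have k3 : ¬ ∀ ω ∈ A, ω (x + e) a = 0 := fun h => by
    rcases x2 a h with h | h
    · exact ha h
    · apply hc
      have e1 : a + (x + e) + e = a + x := by rw [← add_assoc]; exact add_cancel' (a + x) e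
      rwa [e1] at h
  have k4 : ¬ ∀ ω ∈ A, ω (x + e) (a + e) = 0 := fun h => by
    rcases x2 _ h with h | h
    · exact ha' h
    · apply hc'
      have e1 : a + e + (x + e) + e = a + x + e := by
        have : a + e + (x + e) + e = a + x + e + (e + e) := by abel
        rw [this, vadd, add_zero]
      rwa [e1] at h
  have c1 := claim hPL hA hL hs (α := a) x1 x2 k1 k2
  have c2 := claim hPL hA hL hs (α := a + e) x1 x2 k2 (by rw [hae]; exact k1)
  have c3 := claim hPL hA hL hs (α := a) x2 x3 k3 k4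
  have c4 := claim hPL hA hL hs (α := a + e) x2 x3 k4 (by rw [hae]; exact k3)
  have e2 : a + e + x = a + x + e := by abel
  have e3 : a + (x + e) = a + x + e := by abel
  have e4 : a + e + (x + e) = a + x := by
    have : a + e + (x + e) = a + x + (e + e) := by abel
    rw [this, vadd, add_zero]
  rw [e2] at c2
  rw [e3] at c3
  rw [e4] at c4
  by_cases h1 : RR e A X a
  · by_cases h2 : RR e A X (a + e)
    · exact Or.inl ⟨⟨ha, ha'⟩, h1, h2⟩
    · exact Or.inr ⟨⟨hc, hc'⟩, c4.resolve_left h2, c2.resolve_left h2⟩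
  · exact Or.inr ⟨⟨hc, hc'⟩, c1.resolve_left h1, c3.resolve_left h1⟩

/-- the subgroup of non-birigid elements -/
def TT (hPL : S_PL) {A : Fam V} {X : DSub V} (hA : EFam e A) (hL : Linked A)
    (hs : supp A ≤ X) : Submodule (ZMod 2) V where
  carrier := {a | ¬ Rig e A X a}
  zero_mem' := fun h => h.1.1 (WW X).zero_mem
  add_mem' := by
    intro a c ha hc hr
    have e1 : a + c + c = a := add_cancel' a c
    have e2 : a + c + a = c := by rw [add_comm a c, add_cancel']
    by_cases h1 : a ∈ WW X ∨ a + e ∈ WW X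
    · exact hc (hr.tr' hA hs (by rw [e1]; exact h1))
    by_cases h2 : c ∈ WW X ∨ c + e ∈ WW X
    · exact ha (hr.tr' hA hs (by rw [e2]; exact h2))
    push Not at h1 h2
    have e3 : a + (a + c) = c := add_cancel_left' a c
    rcases claim2 hPL hA hL hs hr h1.1 h1.2 (by rw [e3]; exact h2.1)
      (by rw [e3]; exact h2.2) with h | h
    · exact ha h
    · rw [e3] at h; exact hc h
  smul_mem' := by
    intro c a ha
    rcases z01 c with rfl | rfl
    · rw [zero_smul]
      exact fun h => h.1.1 (WW X).zero_mem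
    · rw [one_smul]; exact ha

theorem mem_TT {hPL : S_PL} {A : Fam V} {X : DSub V} {hA : EFam e A} {hL : Linked A}
    {hs : supp A ≤ X} {a : V} : a ∈ TT hPL hA hL hs ↔ ¬ Rig e A X a := Iff.rfl

/-- `i_a A` is the annihilator of `K_a` -/
theorem mem_val {A : Fam V} {a : V} {f : Dl V} (h : ∀ y, (∀ ω ∈ A, ω a y = 0) → f y = 0) :
    ∃ ω ∈ A, ω a = f := by
  let I : DSub V := A.map (LinearMap.applyₗ a : Frm V →ₗ[ZMod 2] Dl V)
  have hf : f ∈ I := mem_of_coann fun b hb => h b fun ω hω => hb (ω a) ⟨ω, hω, rfl⟩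
  obtain ⟨ω, hω, h2⟩ := hf
  exact ⟨ω, hω, h2⟩

/-- `R` from values -/
theorem RR.of_val {A : Fam V} {X : DSub V} {x : V} {f0 : Dl V} (hf0 : f0 ∈ X)
    (hf1 : f0 (x + e) = 1) (h : ∀ f ∈ X, f (x + e) = 0 → ∃ ω ∈ A, ω x = f) : RR e A X x := by
  intro y hy
  have key : ∀ f ∈ X, f (x + e) = 0 → f y = 0 := by
    intro f hf hfx
    obtain ⟨ω, hω, rfl⟩ := h f hf hfx
    exact hy ω hω
  have key2 : ∀ f ∈ X, f (x + e) = 1 → f y = f0 y := by
    intro f hf h1
    have := key (f + f0) (X.add_mem hf hf0) (by rw [LinearMap.add_apply, h1, hf1, zadd])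
    rw [LinearMap.add_apply] at this
    exact add_eq_zero'.mp this
  rcases z01 (f0 y) with h2 | h2
  · left
    rw [mem_WW]
    intro f hf
    rcases z01 (f (x + e)) with h1 | h1
    · exact key f hf h1
    · rw [key2 f hf h1, h2]
  · right
    rw [mem_WW]
    intro f hf
    rw [add_assoc, map_add]
    rcases z01 (f (x + e)) with h1 | h1
    · rw [key f hf h1, h1, zero_add]
    · rw [key2 f hf h1, h2, h1, zadd]

end

theorem t_RIG1 (hPL : S_PL) : S_RIG1 := by
  intro V _ _ _ e A X x hA hL hLU hs hX hx hxe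
  have e0 : x + e + e = x := add_cancel' x e
  -- `x` is birigid
  have hxr : Rig e A X x := by
    obtain ⟨f0, hf0, hf1, hf2⟩ := hX
    have hf3 : f0 (x + e) = 1 := by rw [map_add, hf1, hf2, add_zero]
    refine ⟨⟨fun h => ?_, fun h => ?_⟩, ?_, ?_⟩
    · rw [mem_WW.mp h f0 hf0] at hf1; exact zero_ne_one hf1
    · rw [mem_WW.mp h f0 hf0] at hf3; exact zero_ne_one hf3
    · exact RR.of_val hf0 hf3 hx
    · exact RR.of_val hf0 (by rw [e0]; exact hf1) (by rw [e0]; exact hxe)
  let T := TT hPL hA hL hs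
  have hxT : x ∉ T := fun h => (mem_TT.mp h) hxr
  obtain ⟨q, hq1, hq2⟩ : ∃ q : Dl V, q x = 1 ∧ ∀ t ∈ T, q t = 0 := by
    obtain ⟨q, h1, h2⟩ := Submodule.exists_le_ker_of_notMem hxT
    exact ⟨q, z_ne h1, fun t ht => h2 ht⟩
  have hWT : ∀ w ∈ WW X, w ∈ T := fun w hw h => h.1.1 hw
  have heT : e ∈ T := fun h => h.1.2 (by rw [vadd]; exact (WW X).zero_mem)
  have hqe : q e = 0 := hq2 e heT
  have hqX : q ∈ X := mem_of_coann fun b hb => hq2 b (hWT b (mem_WW.mpr hb))
  refine ⟨q, hqX, hq1, hqe, fun g hg => hLU _ (wd_ef hqe g) fun a => ?_⟩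
  by_cases ha : Rig e A X a
  · refine mem_val fun y hy => ?_
    have hz : wd e q g a ∈ X := by
      rw [wd_apply]
      exact X.add_mem (X.add_mem (X.smul_mem _ hg) (X.smul_mem _ hqX)) (X.smul_mem _ hqX)
    rcases ha.2.1 y hy with h | h
    · exact mem_WW.mp h _ hz
    · have h1 := mem_WW.mp h _ hz
      rw [add_assoc, map_add, (wd_ef hqe g).self_e a, add_zero] at h1
      exact h1
  · have hqa : q a = 0 := hq2 a ha
    rw [wd_val_zero hqa]
    rcases z01 (g a) with h | h
    · exact ⟨0, A.zero_mem, by rw [h, zero_smul]; rfl⟩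
    · rw [h, one_smul]
      refine mem_val fun y hy => ?_
      by_contra hqy
      have hyr : Rig e A X y := by
        by_contra hn
        exact hqy (hq2 y hn)
      rcases hyr.2.1 a (fun ω hω => by rw [(hA ω hω).symm]; exact hy ω hω) with h1 | h1
      · rw [mem_WW.mp h1 g hg] at h
        exact zero_ne_one h
      · exact ha (hyr.tr' hA hs (Or.inr (by rw [add_comm y a]; exact h1)))

end Pool.Agent.W347.ELG
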